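import Pool.Agent.Q41.FP.Main

/-! MP_71de02_ag: for `n ≥ 6` the effective cone of the blow-up of `ℙ^n` in `n + 4` general points
has a positive part. -/

set_option autoImplicit false

open MvPolynomial

namespace Pool.Agent.Results.MP_71de02_ag.PositivePart

/-- The form `F` has multiplicity at least `m` at the point `p`: all partial derivatives of `F` of
order less than `m` vanish at `p`. -/
def MultAtLeast {N : ℕ} (F : MvPolynomial (Fin N) ℂ) (p : Fin N → ℂ) (m : ℕ) : Prop :=
  ∀ l : List (Fin N), l.length < m → eval p (l.foldr (fun i G => pderiv i G) F) = 0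

/-- The points of `ℙ^n` with the homogeneous coordinates `p i` are in linearly general position:
any `n + 1` of the vectors `p i` are linearly independent. -/
def InGeneralPosition {n s : ℕ} (p : Fin s → Fin (n + 1) → ℂ) : Prop :=
  ∀ S : Finset (Fin s), S.card = n + 1 → LinearIndependent ℂ fun i : S => p i

/-- Let `n ≥ 6`. There is a class `d H - ∑ m_i E_i` with `(n + 1) d < ∑ m_i` which is effective on
the blow-up of `ℙ^n` in any `n + 4` points in linearly general position. -/
theorem result (n : ℕ) (hn : 6 ≤ n) : ∃ (d : ℕ) (m : Fin (n + 4) → ℕ),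
    (n + 1) * d < ∑ i, m i ∧
    ∀ p : Fin (n + 4) → Fin (n + 1) → ℂ, InGeneralPosition p →
      ∃ F : MvPolynomial (Fin (n + 1)) ℂ, F ≠ 0 ∧ F.IsHomogeneous d ∧
        ∀ i, MultAtLeast F (p i) (m i) := by
  refine ⟨187, fun i => if i.val < 10 then 131 else 187, ?_, ?_⟩
  · obtain ⟨k, rfl⟩ := Nat.exists_eq_add_of_le hn
    rw [Fin.sum_univ_eq_sum_range (fun i => if i < 10 then 131 else 187) (6 + k + 4),
      show 6 + k + 4 = 10 + k by ring, Finset.sum_range_add]
    have h1 : ∑ i ∈ Finset.range k, (if 10 + i < 10 then 131 else 187) = 187 * k := by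
      rw [Finset.sum_congr rfl (fun i _ => if_neg (by omega : ¬ 10 + i < 10)), Finset.sum_const,
        Finset.card_range, smul_eq_mul, mul_comm]
    have h2 : ∑ i ∈ Finset.range 10, (if i < 10 then 131 else 187) = 1310 := by decide
    rw [h1, h2]
    ring_nf
    omega
  · intro p hp
    obtain ⟨F, h0, hh, hF⟩ := Q41.FP.main hn hp
    exact ⟨F, h0, hh, fun i l hl => hF i l hl⟩

end Pool.Agent.Results.MP_71de02_ag.PositivePart
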